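import Pool.Agent.HMT.Stmts

/-!
# Squad HMT, rows ISO and CRE
-/

open scoped Classical

namespace Pool.Agent.HMT.H69

theorem hat_inj (F : Fr) (j k : F.J) (ψ : Equiv.Perm F.R) : Function.Injective (F.hat j k ψ) :=
  Function.Injective.sumMap (Equiv.injective _) (Equiv.injective _)

theorem rel_iff (F : Fr) (ε ε' : ℤˣ) (hε : ε' = -ε) (j k : F.J) (hjk : j ≠ k)
    (ψ : Equiv.Perm F.R) (Z : Finset F.R) (a b : F.Vert ε)
    (hb : ∀ r ∈ Z, b = Sum.inr (Sum.inr r) → F.par (ψ r) = F.hat j k ψ (F.par r)) :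
    F.rel ε' (Z.map ψ.toEmbedding) (F.sig ε ε' hε j k hjk ψ a) (F.sig ε ε' hε j k hjk ψ b) ↔
      F.rel ε Z a b := by
  rcases a with ⟨g, x⟩ | p
  · rcases b with ⟨h, y⟩ | (l | r)
    · rw [Fr.sig_inl, Fr.sig_inl]
      change (_ = _ ∧ F.S.Adj x y) ↔ (g = h ∧ F.S.Adj x y)
      apply and_congr_left
      intro _
      constructor
      · intro h1
        have h2 := congrArg Subtype.val h1
        exact Subtype.ext (mul_left_cancel h2)
      · rintro rfl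
        rfl
    · rw [Fr.sig_inl, Fr.sig_inr]
      change (x = F.e ((Equiv.swap j k * g.1).symm (Equiv.swap j k l))) ↔ (x = F.e (g.1.symm l))
      have h1 : (Equiv.swap j k * g.1).symm (Equiv.swap j k l) = g.1.symm l := by
        rw [Equiv.symm_apply_eq, Equiv.Perm.mul_apply, Equiv.apply_symm_apply]
      rw [h1]
    · rw [Fr.sig_inl, Fr.sig_inr]
      exact Iff.rfl
  · rcases b with ⟨h, y⟩ | (l | r)
    · rw [Fr.sig_inl, Fr.sig_inr]
      rcases p with p | p <;> exact Iff.rfl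
    · rw [Fr.sig_inr, Fr.sig_inr]
      rcases p with p | p <;> exact Iff.rfl
    · rw [Fr.sig_inr, Fr.sig_inr]
      change (F.hat j k ψ p = F.par (ψ r) ∧ ψ r ∈ Z.map ψ.toEmbedding) ↔ (p = F.par r ∧ r ∈ Z)
      have h1 : ψ r ∈ Z.map ψ.toEmbedding ↔ r ∈ Z := by
        rw [Finset.mem_map]
        constructor
        · rintro ⟨r', hr', h2⟩
          have : r' = r := ψ.injective h2
          rwa [← this]
        · intro hr
          exact ⟨r, hr, rfl⟩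
      rw [h1]
      apply and_congr_left
      intro hr
      rw [hb r hr rfl]
      exact (hat_inj F j k ψ).eq_iff

/-- ISO -/
theorem iso : IsoStmt := by
  intro F ε ε' hε j k hjk ψ Z B hB
  refine ⟨⟨(F.sig ε ε' hε j k hjk ψ).image B, ?_⟩⟩
  intro a b
  have h1 : ∀ r ∈ Z, (b : F.Vert ε) = Sum.inr (Sum.inr r) →
      F.par (ψ r) = F.hat j k ψ (F.par r) := fun r hr h => hB r hr (h ▸ b.2)
  have h2 : ∀ r ∈ Z, (a : F.Vert ε) = Sum.inr (Sum.inr r) →
      F.par (ψ r) = F.hat j k ψ (F.par r) := fun r hr h => hB r hr (h ▸ a.2)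
  change (F.Gr ε' (Z.map ψ.toEmbedding)).Adj (F.sig ε ε' hε j k hjk ψ a)
    (F.sig ε ε' hε j k hjk ψ b) ↔ (F.Gr ε Z).Adj a b
  unfold Fr.Gr
  rw [SimpleGraph.fromRel_adj, SimpleGraph.fromRel_adj, rel_iff F ε ε' hε j k hjk ψ Z a b h1,
    rel_iff F ε ε' hε j k hjk ψ Z b a h2]
  apply and_congr_left
  intro _
  rw [not_iff_not]
  exact (F.sig ε ε' hε j k hjk ψ).injective.eq_iff

/-! ## CRE -/

/-- the neighbours of a tree vertex -/
theorem rel_tree_left (F : Fr) (ε : ℤˣ) (Z : Finset F.R) (r : F.R) (a : F.Vert ε)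
    (h : F.rel ε Z (Sum.inr (Sum.inr r)) a) :
    ∃ r', a = Sum.inr (Sum.inr r') ∧ F.dep r < F.dep r' := by
  rcases a with ⟨g, x⟩ | (l | r')
  · exact h.elim
  · exact h.elim
  · have h1 : Sum.inr r = F.par r' ∧ r' ∈ Z := h
    exact ⟨r', rfl, F.hdep r' r h1.1.symm⟩

theorem rel_tree_right (F : Fr) (ε : ℤˣ) (Z : Finset F.R) (r : F.R) (a : F.Vert ε)
    (h : F.rel ε Z a (Sum.inr (Sum.inr r))) : a = Sum.inr (F.par r) := by
  rcases a with ⟨g, x⟩ | p
  · exact h.elim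
  · have h1 : p = F.par r ∧ r ∈ Z := h
    rw [h1.1]

/-- the adjacency of the vertices which are not in the trees does not depend on `Z` -/
theorem rel_indep (F : Fr) (ε : ℤˣ) (Z Z' : Finset F.R) (a b : F.Vert ε)
    (hb : ∀ r, b ≠ Sum.inr (Sum.inr r)) : F.rel ε Z a b ↔ F.rel ε Z' a b := by
  rcases a with ⟨g, x⟩ | p
  · rcases b with ⟨h, y⟩ | (l | r)
    · exact Iff.rfl
    · exact Iff.rfl
    · exact absurd rfl (hb r)
  · rcases b with ⟨h, y⟩ | (l | r)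
    · rcases p with p | p <;> exact Iff.rfl
    · rcases p with p | p <;> exact Iff.rfl
    · exact absurd rfl (hb r)

theorem adj_indep (F : Fr) (ε : ℤˣ) (Z Z' : Finset F.R) (a b : F.Vert ε)
    (ha : ∀ r, a ≠ Sum.inr (Sum.inr r)) (hb : ∀ r, b ≠ Sum.inr (Sum.inr r)) :
    (F.Gr ε Z).Adj a b ↔ (F.Gr ε Z').Adj a b := by
  unfold Fr.Gr
  rw [SimpleGraph.fromRel_adj, SimpleGraph.fromRel_adj, rel_indep F ε Z Z' a b hb,
    rel_indep F ε Z Z' b a ha]

/-- a set in which every vertex has two neighbours does not meet the trees -/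
theorem no_tree (F : Fr) (ε : ℤˣ) (Z : Finset F.R) (B : Set (F.Vert ε)) (S : Set B)
    (hS : ∀ w ∈ S, ∃ a ∈ S, ∃ b ∈ S, a ≠ b ∧ ((F.Gr ε Z).induce B).Adj w a ∧
      ((F.Gr ε Z).induce B).Adj w b) :
    ∀ w ∈ S, ∀ r, (w : F.Vert ε) ≠ Sum.inr (Sum.inr r) := by
  by_contra hcon
  push Not at hcon
  obtain ⟨w₀, hw₀, r₀, hr₀⟩ := hcon
  let A : Finset F.R := Finset.univ.filter fun r => ∃ w ∈ S, (w : F.Vert ε) = Sum.inr (Sum.inr r)
  have hA : A.Nonempty := ⟨r₀, Finset.mem_filter.2 ⟨Finset.mem_univ _, w₀, hw₀, hr₀⟩⟩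
  obtain ⟨r, hr, hmax⟩ := Finset.exists_max_image A F.dep hA
  obtain ⟨w, hw, hwr⟩ := (Finset.mem_filter.1 hr).2
  have key : ∀ a ∈ S, ((F.Gr ε Z).induce B).Adj w a → (a : F.Vert ε) = Sum.inr (F.par r) := by
    intro a ha hadj
    have h1 : (F.Gr ε Z).Adj (w : F.Vert ε) a := hadj
    unfold Fr.Gr at h1
    rw [SimpleGraph.fromRel_adj, hwr] at h1
    rcases h1.2 with h2 | h2
    · obtain ⟨r', hr', hlt⟩ := rel_tree_left F ε Z r a h2
      exact absurd (hmax r' (Finset.mem_filter.2 ⟨Finset.mem_univ _, a, ha, hr'⟩))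
        (not_le.2 hlt)
    · exact rel_tree_right F ε Z r a h2
  obtain ⟨a, ha, b, hb, hab, h1, h2⟩ := hS w hw
  exact hab (Subtype.ext ((key a ha h1).trans (key b hb h2).symm))

theorem core_sub (F : Fr) (ε : ℤˣ) (Z Z' : Finset F.R) (B : Set (F.Vert ε)) :
    core ((F.Gr ε Z).induce B) ⊆ core ((F.Gr ε Z').induce B) := by
  rintro v ⟨S, hv, hS⟩
  have h1 := no_tree F ε Z B S hS
  refine ⟨S, hv, ?_⟩
  intro w hw
  obtain ⟨a, ha, b, hb, hab, h2, h3⟩ := hS w hw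
  refine ⟨a, ha, b, hb, hab, ?_, ?_⟩
  · exact (adj_indep F ε Z Z' w a (h1 w hw) (h1 a ha)).1 h2
  · exact (adj_indep F ε Z Z' w b (h1 w hw) (h1 b hb)).1 h3

theorem core_not (F : Fr) (ε : ℤˣ) (Z : Finset F.R) (B : Set (F.Vert ε)) (v : B)
    (hv : v ∈ core ((F.Gr ε Z).induce B)) : ∀ r, (v : F.Vert ε) ≠ Sum.inr (Sum.inr r) := by
  obtain ⟨S, hv, hS⟩ := hv
  exact no_tree F ε Z B S hS v hv

/-- CRE -/
theorem cre : CreStmt := by
  intro F ε Z B
  have h1 : core ((F.Gr ε Z).induce B) = core ((F.Gr ε ∅).induce B) :=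
    Set.Subset.antisymm (core_sub F ε Z ∅ B) (core_sub F ε ∅ Z B)
  refine ⟨⟨Equiv.setCongr h1, ?_⟩⟩
  intro a b
  exact (adj_indep F ε ∅ Z (a : B) (b : B) (core_not F ε Z B _ a.2) (core_not F ε Z B _ b.2))

end Pool.Agent.HMT.H69
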